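import Pool.Agent.Run7.h462.BPG.Fin
import Pool.Agent.Run7.h462.BPG.Ti
import Pool.Agent.Run7.h462.BPG.Bil
import Pool.Agent.Run7.h462.BPG.Tri
import Pool.Agent.Run7.h462.BPD.Spc
import Pool.Agent.Run7.h462.BPD.Tii
import Pool.Agent.Run7.h973.BPG.FM
import Pool.Agent.Run7.h704.BPD.UP
import Pool.Agent.Run7.h704.BPD.SQ
import Pool.Agent.Run7.h704.BPD.AV
import Pool.Agent.Run7.h757.BP.Vau

/-!
# Project BPG: the assembled theorem, every degree
-/

set_option autoImplicit false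

namespace Run7.h462.QA

open Finset Filter Topology
open Run7.h462.BPG (lam GoodG)
open scoped Polynomial

/-- the theorem of project BPG -/
theorem coreG (F : ℤ[X]) (hd2 : 2 ≤ F.natDegree) (hl : 0 < F.leadingCoeff)
    (η : ℝ) (hη : 0 < η) (hη1 : η ≤ 1 / 2) :
    ∃ (E : ℕ) (c : ℝ), 0 < c ∧ ∀ ε : ℝ, 0 < ε → ∃ N0 : ℕ, ∀ N : ℕ, N0 ≤ N → ∀ A : ℕ,
      (N : ℝ) ^ ((1 - lam F.natDegree) * (F.natDegree : ℝ) - 1 + ε) ≤ A → (A : ℝ) ≤ (N : ℝ) ^ (F.natDegree - 1) →
      c * A ≤ (@Finset.card ℕ (@Finset.filter ℕ (fun a => GoodG F η c E N a) (fun _ => Classical.propDecidable _)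
        (Icc 1 A)) : ℝ) := by
  have hs : (0 : ℝ) < (F.leadingCoeff : ℝ) ^ (-1 / (F.natDegree : ℝ)) := by
    apply Real.rpow_pos_of_pos
    exact_mod_cast hl
  have hbil := BPG.bil _ F.natDegree hd2 (BPD.tii _ hs F.natDegree hd2 (BPD.spc F.natDegree (by omega)))
  have hti := BPG.ti _ hs F.natDegree hd2
  have htri := BPG.tri (BPG.es4 Run7.h757.BP.Vau.vau hbil hti)
  exact BPG.core F hd2 (Run7.h973.BPG.fm hd2 hl htri) (Run7.h704.BPD.up F hl (by omega))
    (Run7.h704.BPD.sq F hl.ne' (by omega)) (Run7.h704.BPD.av F (by omega)) η hη hη1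

lemma lam_range (d : ℕ) (hd : 2 ≤ d) : (1 - lam d) * (d : ℝ) - 1 = max (3 / 4 * (d : ℝ) - 1) ((d : ℝ) - 2) := by
  unfold lam
  have hd0 : (0 : ℝ) < d := by
    have : 0 < d := by omega
    exact_mod_cast this
  rcases le_total (1 / 4 : ℝ) (1 / (d : ℝ)) with h | h
  · rw [min_eq_left h, max_eq_left]
    · ring
    · have h1 : (d : ℝ) ≤ 4 := by
        rw [div_le_div_iff₀ (by norm_num) hd0] at h
        linarith
      linarith
  · rw [min_eq_right h, max_eq_right]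
    · field_simp
      ring
    · have h1 : (4 : ℝ) ≤ d := by
        rw [div_le_div_iff₀ hd0 (by norm_num)] at h
        linarith
      linarith

end Run7.h462.QA
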