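import Pool.Agent.Run7.h462.QA.All

/-!
# A polynomial with many prime values is irreducible
-/

set_option autoImplicit false

namespace Run7.h462.QA

open Finset Filter Topology
open Polynomial (X C)
open scoped Polynomial

lemma card_eval_eq (g : ℤ[X]) (r : ℤ) (h : g ≠ C r) (T : Finset ℕ) :
    #(T.filter (fun n : ℕ => g.eval (n : ℤ) = r)) ≤ g.natDegree := by
  have h0 : g - C r ≠ 0 := sub_ne_zero.2 h
  have h1 : (T.filter (fun n : ℕ => g.eval (n : ℤ) = r)).image (fun n : ℕ => (n : ℤ)) ⊆ (g - C r).roots.toFinset := by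
    intro x hx
    rw [mem_image] at hx
    obtain ⟨n, hn, rfl⟩ := hx
    rw [mem_filter] at hn
    rw [Multiset.mem_toFinset, Polynomial.mem_roots h0]
    simp [Polynomial.IsRoot, hn.2]
  calc #(T.filter (fun n : ℕ => g.eval (n : ℤ) = r)) =
        #((T.filter (fun n : ℕ => g.eval (n : ℤ) = r)).image (fun n : ℕ => (n : ℤ))) := by
        rw [card_image_of_injective _ Nat.cast_injective]
    _ ≤ #(g - C r).roots.toFinset := card_le_card h1
    _ ≤ Multiset.card (g - C r).roots := Multiset.toFinset_card_le _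
    _ ≤ (g - C r).natDegree := Polynomial.card_roots' _
    _ = g.natDegree := Polynomial.natDegree_sub_C

lemma card_unit (g : ℤ[X]) (h : ¬ IsUnit g) (T : Finset ℕ) :
    #(T.filter (fun n : ℕ => IsUnit (g.eval (n : ℤ)))) ≤ 2 * g.natDegree := by
  have e1 : g ≠ C 1 := by
    rintro rfl
    exact h (by simp)
  have e2 : g ≠ C (-1) := by
    rintro rfl
    exact h (by
      rw [Polynomial.isUnit_C]
      exact isUnit_one.neg)
  have h1 := card_eval_eq g 1 e1 T
  have h2 := card_eval_eq g (-1) e2 T
  have h3 : T.filter (fun n : ℕ => IsUnit (g.eval (n : ℤ))) ⊆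
      T.filter (fun n : ℕ => g.eval (n : ℤ) = 1) ∪ T.filter (fun n : ℕ => g.eval (n : ℤ) = -1) := by
    intro n hn
    rw [mem_filter] at hn
    rw [mem_union, mem_filter, mem_filter]
    rcases Int.isUnit_iff.1 hn.2 with h | h
    · exact Or.inl ⟨hn.1, h⟩
    · exact Or.inr ⟨hn.1, h⟩
  have h4 := (card_le_card h3).trans (card_union_le _ _)
  omega

/-- a polynomial of degree `d ≥ 1` with more than `2 d` prime values is irreducible -/
theorem irr (G : ℤ[X]) (hd : 1 ≤ G.natDegree) (T : Finset ℕ)
    (h : 2 * G.natDegree < #(T.filter (fun n : ℕ => Nat.Prime (G.eval (n : ℤ)).toNat))) : Irreducible G := by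
  have hG0 : G ≠ 0 := by
    rintro rfl
    rw [Polynomial.natDegree_zero] at hd
    omega
  refine ⟨fun hu => ?_, fun g k hgk => ?_⟩
  · have := Polynomial.natDegree_eq_zero_of_isUnit hu
    omega
  · by_contra hcon
    push Not at hcon
    obtain ⟨hg, hk⟩ := hcon
    have hg0 : g ≠ 0 := by
      rintro rfl
      rw [zero_mul] at hgk
      exact hG0 hgk
    have hk0 : k ≠ 0 := by
      rintro rfl
      rw [mul_zero] at hgk
      exact hG0 hgk
    have hdeg : G.natDegree = g.natDegree + k.natDegree := by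
      rw [hgk, Polynomial.natDegree_mul hg0 hk0]
    have h1 := card_unit g hg T
    have h2 := card_unit k hk T
    have h3 : T.filter (fun n : ℕ => Nat.Prime (G.eval (n : ℤ)).toNat) ⊆
        T.filter (fun n : ℕ => IsUnit (g.eval (n : ℤ))) ∪ T.filter (fun n : ℕ => IsUnit (k.eval (n : ℤ))) := by
      intro n hn
      rw [mem_filter] at hn
      rw [mem_union, mem_filter, mem_filter]
      have h4 : Prime (G.eval (n : ℤ)) := by
        have h5 : 0 ≤ G.eval (n : ℤ) := by
          by_contra hneg
          have : (G.eval (n : ℤ)).toNat = 0 := by omega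
          rw [this] at hn
          exact Nat.not_prime_zero hn.2
        have h6 : (((G.eval (n : ℤ)).toNat : ℕ) : ℤ) = G.eval (n : ℤ) := Int.toNat_of_nonneg h5
        rw [← h6]
        exact Nat.prime_iff_prime_int.1 hn.2
      have h5 : G.eval (n : ℤ) = g.eval (n : ℤ) * k.eval (n : ℤ) := by rw [hgk, Polynomial.eval_mul]
      rcases h4.irreducible.isUnit_or_isUnit h5 with h6 | h6
      · exact Or.inl ⟨hn.1, h6⟩
      · exact Or.inr ⟨hn.1, h6⟩
    have h4 := (card_le_card h3).trans (card_union_le _ _)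
    omega

end Run7.h462.QA
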