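import Pool.Agent.Run7.h462.QA.All
import Pool.Agent.Run7.h757.BP.Fin
import Pool.Agent.N792.RX8
import Pool.Agent.N792.T9Q

/-!
# Lower bounds of the expected order for a positive proportion of the constant terms of `a n² + b n + c`
-/

set_option autoImplicit false

namespace Run7.h462.QA

open Finset Filter Topology
open Pool.Agent.N792 (Vc V1 Admissible eps gcdProd partialC exists_level li_upper2 x8 V1_pos)
open Pool.Agent.H373R2.T7 (pz Vz)
open Pool.Agent.TH204.WR (hh hh_nonneg)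
open Run7.h462.BPD (P)
open Run7.h462.BPG (GoodG)
open scoped Polynomial

/-- the polynomial `a X² + b X` -/
noncomputable def FF (a b : ℤ) : ℤ[X] := Polynomial.C a * Polynomial.X ^ 2 + Polynomial.C b * Polynomial.X + Polynomial.C 0

lemma eval_FF (a b x : ℤ) : (FF a b).eval x = a * x ^ 2 + b * x := by
  unfold FF
  simp

lemma natDegree_FF (a b : ℤ) (ha : 0 < a) : (FF a b).natDegree = 2 :=
  Polynomial.natDegree_quadratic ha.ne'

lemma leadingCoeff_FF (a b : ℤ) (ha : 0 < a) : (FF a b).leadingCoeff = a :=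
  Polynomial.leadingCoeff_quadratic ha.ne'

lemma rho_FF (a b c : ℤ) (p : ℕ) : Pool.Agent.TH204.WR.rho (FF a b) c p = Pool.Agent.N792.rho a b c p := by
  unfold Pool.Agent.TH204.WR.rho Pool.Agent.N792.rho Pool.Agent.N792.fv
  simp only [eval_FF]

lemma hh_FF (a b c : ℤ) (z : ℕ) : hh (FF a b) c z = Vc a b c z / V1 z := by
  unfold hh Vc V1 Vz pz
  simp only [rho_FF]
  rw [div_eq_mul_inv, mul_comm]

lemma hh_zero {F : ℤ[X]} {c : ℤ} {z p : ℕ} (hp : p.Prime) (hpz : p ≤ z)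
    (h : ∀ x : ℤ, (p : ℤ) ∣ F.eval x + c) : hh F c z = 0 := by
  unfold hh
  have h1 : Pool.Agent.TH204.WR.rho F c p = p := by
    unfold Pool.Agent.TH204.WR.rho
    rw [filter_true_of_mem (s := range p) (p := fun x : ℕ => (p : ℤ) ∣ F.eval (x : ℤ) + c) (fun x _ => h (x : ℤ)),
      card_range]
  have h2 : ∏ q ∈ pz z, (1 - (Pool.Agent.TH204.WR.rho F c q : ℝ) / q) = 0 := by
    apply prod_eq_zero (i := p)
    · unfold pz
      rw [mem_filter, mem_Icc]
      exact ⟨⟨hp.one_lt.le, hpz⟩, hp⟩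
    · rw [h1, div_self (by exact_mod_cast hp.ne_zero), sub_self]
  rw [h2, mul_zero]

/-- a positive truncated singular series and a negative discriminant imply that the triple is admissible -/
lemma admissible_of (a b c : ℤ) (z : ℕ) (ha : 0 < a) (haz : a ≤ z) (hz : 2 ≤ z) (hc : b ^ 2 < c)
    (hpos : 0 < hh (FF a b) c z) : Admissible a b c := by
  refine ⟨ha, ?_, ?_, ?_⟩
  · intro d hda hdb hdc
    by_contra hu
    obtain ⟨p, hp, hpd⟩ := Int.exists_prime_and_dvd (n := d) (by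
      intro h
      exact hu (Int.isUnit_iff_natAbs_eq.2 h))
    have hpn : p.natAbs.Prime := Int.prime_iff_natAbs_prime.1 hp
    have hpa : (p.natAbs : ℤ) ∣ a := (Int.natAbs_dvd.2 hpd).trans hda
    have hpb : (p.natAbs : ℤ) ∣ b := (Int.natAbs_dvd.2 hpd).trans hdb
    have hpc : (p.natAbs : ℤ) ∣ c := (Int.natAbs_dvd.2 hpd).trans hdc
    have h1 : p.natAbs ≤ z := by
      have h2 := Int.le_of_dvd ha hpa
      omega
    rw [hh_zero hpn h1 (fun x => by
      rw [eval_FF]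
      exact dvd_add (dvd_add (Dvd.dvd.mul_right hpa _) (Dvd.dvd.mul_right hpb _)) hpc)] at hpos
    exact lt_irrefl _ hpos
  · rintro ⟨h1, h2⟩
    rw [hh_zero Nat.prime_two hz (fun x => by
      rw [eval_FF]
      push_cast
      apply dvd_add _ h2
      have e1 : a * x ^ 2 + b * x = (a + b) * x + a * (x * (x - 1)) := by ring
      rw [e1]
      apply dvd_add (Dvd.dvd.mul_right h1 _)
      apply Dvd.dvd.mul_left
      rcases Int.even_or_odd x with h | h
      · exact Dvd.dvd.mul_right h.two_dvd _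
      · apply Dvd.dvd.mul_left
        obtain ⟨k, hk⟩ := h
        exact ⟨k, by rw [hk]; ring⟩)] at hpos
    exact lt_irrefl _ hpos
  · intro h
    obtain ⟨r, hr⟩ := h
    have h1 : 0 ≤ r * r := mul_self_nonneg r
    have h2 : 0 < b ^ 2 - 4 * a * c ∨ b ^ 2 - 4 * a * c = 0 := by
      rcases h1.lt_or_eq with h | h
      · left; rw [hr]; exact h
      · right; rw [hr, ← h]
    have h3 : c ≤ a * c := by nlinarith
    have h4 : b ^ 2 - 4 * a * c < 0 := by nlinarith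
    omega

/-- the conclusion for one constant term -/
def GoodC (a b : ℤ) (η κ : ℝ) (N c : ℕ) : Prop :=
  Admissible a b c ∧ ∃ S : ℝ, κ ≤ 1 / 2 * (eps a b * S * gcdProd a b) ∧
    Tendsto (fun y => partialC a b c y) atTop (𝓝 S) ∧
    (1 - η) * (1 / 2 * (eps a b * S * gcdProd a b) * ∫ t in (2 : ℝ)..(N : ℝ), 1 / Real.log t) ≤ P (FF a b) c N

lemma int_nonneg {N : ℕ} (hN : 2 ≤ N) : 0 ≤ ∫ t in (2 : ℝ)..(N : ℝ), 1 / Real.log t :=
  Run7.h757.BP.Fin.int_nonneg hN

open Classical in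
theorem quad (a : ℤ) (ha : 0 < a) (b : ℤ) (η : ℝ) (hη : 0 < η) (hη1 : η ≤ 1 / 2) :
    ∃ κ : ℝ, 0 < κ ∧ ∀ ε : ℝ, 0 < ε → ∃ N0 : ℕ, ∀ N : ℕ, N0 ≤ N → ∀ A : ℕ,
      (N : ℝ) ^ (1 / 2 + ε) ≤ A → A ≤ N →
      κ * A ≤ (#((Icc 1 A).filter (fun c => GoodC a b η κ N c)) : ℝ) := by
  obtain ⟨E, c₁, hc₁, hcore⟩ := coreG (FF a b) (natDegree_FF a b ha).ge
    (by rw [leadingCoeff_FF a b ha]; exact ha) (η / 2) (by positivity) (by linarith)
  obtain ⟨κ, hκ⟩ : ∃ κ, κ = c₁ / 4 := ⟨_, rfl⟩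
  refine ⟨κ, by rw [hκ]; positivity, fun ε hε => ?_⟩
  obtain ⟨N1, hcore⟩ := hcore ε hε
  obtain ⟨θ, hθ⟩ : ∃ θ : ℝ, θ = η / 16 := ⟨_, rfl⟩
  have hθ0 : 0 < θ := by rw [hθ]; positivity
  obtain ⟨N2, hX8⟩ := x8 a ha b 3 (2 * (E + 18))
  obtain ⟨M1, hM1⟩ := eventually_atTop.1 (li_upper2 θ hθ0)
  obtain ⟨M2, hM2⟩ := eventually_atTop.1 (Run7.h757.BP.Fin.rpow_ge_log (1 / 6) (by norm_num) (2 * (E + 18)) 1 one_pos)
  obtain ⟨M3, hM3⟩ := eventually_atTop.1 ((tendsto_rpow_atTop (y := 1 / 2) (by norm_num)).comp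
    (tendsto_natCast_atTop_atTop (R := ℝ)) |>.eventually_ge_atTop (4 * ((b : ℝ) ^ 2 + 1) / c₁))
  obtain ⟨M4, hM4⟩ := eventually_atTop.1 ((Real.tendsto_log_atTop.comp tendsto_natCast_atTop_atTop).eventually_ge_atTop
    (2 + 1 / θ + a + 4 / c₁))
  refine ⟨N1 + N2 + M1 + M2 + M3 + M4 + 10, fun N hN A hA1 hA2 => ?_⟩
  have g1 := hM1 N (by omega) 2 N le_rfl (by omega) le_rfl
  have g2 := hM2 N (by omega)
  have g3 := hM3 N (by omega)
  have g4 := hM4 N (by omega)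
  simp only [Function.comp] at g3 g4
  rw [one_mul] at g2
  obtain ⟨L, hL⟩ : ∃ L : ℝ, L = Real.log N := ⟨_, rfl⟩
  rw [← hL] at g1 g2 g4
  have hNR : (10 : ℝ) ≤ N := by exact_mod_cast (by omega : 10 ≤ N)
  have hN0 : (0 : ℝ) < N := by linarith
  have haR : (1 : ℝ) ≤ a := by exact_mod_cast ha
  have hθi : 0 < 1 / θ := by positivity
  have hci : 0 < 4 / c₁ := by positivity
  have hL2 : 2 ≤ L := by linarith
  have hL0 : 0 < L := by linarith
  have hLa : (a : ℝ) ≤ L := by linarith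
  have hL3 : 1 / L ^ 3 ≤ θ := by
    have h1 : 1 / θ ≤ L ^ 3 := by
      have : L ≤ L ^ 3 := le_self_pow₀ (by linarith) (by norm_num)
      linarith
    rw [div_le_iff₀ (by positivity)]
    rw [div_le_iff₀ hθ0] at h1
    linarith
  have hAhalf : (N : ℝ) ^ (1 / 2 : ℝ) ≤ A :=
    (Real.rpow_le_rpow_of_exponent_le (by linarith) (by linarith)).trans hA1
  have hA0 : (0 : ℝ) < A := lt_of_lt_of_le (by positivity) hAhalf
  -- the good set of the core theorem
  have hG := hcore N (by omega) A (by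
    rw [lam_range _ (natDegree_FF a b ha).ge, natDegree_FF a b ha]
    refine le_trans (le_of_eq ?_) hA1
    norm_num) (by
    rw [natDegree_FF a b ha]
    norm_num
    exact_mod_cast hA2)
  -- the level
  obtain ⟨Jw, hw1, hw2⟩ := exists_level (L ^ (2 * (E + 18))) (by
    have : L ≤ L ^ (2 * (E + 18)) := le_self_pow₀ (by linarith) (by omega)
    linarith)
  obtain ⟨w, hw⟩ : ∃ w : ℕ, w = 2 ^ 2 ^ Jw := ⟨_, rfl⟩
  rw [← hw] at hw1 hw2
  have hwE : L ^ (E + 18) ≤ w := by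
    have h1 : (L ^ (E + 18)) ^ 2 ≤ (w : ℝ) ^ 2 := by
      refine le_trans (le_of_eq ?_) hw2
      rw [← pow_mul]
      congr 1
      ring
    exact le_of_sq_le_sq h1 (Nat.cast_nonneg _)
  have hw18 : L ^ (3 * 3 + 9) ≤ w := (pow_le_pow_right₀ (by linarith) (by omega)).trans hwE
  have hwE' : L ^ E ≤ w := (pow_le_pow_right₀ (by linarith) (by omega)).trans hwE
  have hwL : L ≤ w := (le_self_pow₀ (by linarith) (by omega)).trans hw18
  have hw6 : (w : ℝ) ≤ (N : ℝ) ^ (1 / 6 : ℝ) := hw1.trans g2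
  have hw5 : (w : ℝ) ≤ (N : ℝ) ^ (1 / 5 : ℝ) :=
    hw6.trans (Real.rpow_le_rpow_of_exponent_le (by linarith) (by norm_num))
  have hw3 : w ^ 6 ≤ N := by
    have h1 : (w : ℝ) ^ 6 ≤ N := by
      calc (w : ℝ) ^ 6 ≤ ((N : ℝ) ^ (1 / 6 : ℝ)) ^ 6 := by gcongr
        _ = (N : ℝ) := by
            rw [← Real.rpow_natCast, ← Real.rpow_mul hN0.le]
            norm_num
    exact_mod_cast h1
  obtain ⟨Ex, hE1, hE2, hE3⟩ := hX8 N (by omega) A hAhalf hA2 w w (by rw [← hL]; exact hw18) (by rw [← hL]; exact hw1)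
    le_rfl hw5
  rw [← hL] at hE2
  -- the integral
  have hI : ∫ t in (2 : ℝ)..(N : ℝ), 1 / Real.log t ≤ (1 + θ) * (N / L) := by
    have h1 : (((2 : ℕ) : ℝ)) = 2 := by norm_num
    rw [h1] at g1
    refine g1.trans ?_
    have h2 : ((N : ℝ) - 2) / L ≤ N / L := div_le_div_of_nonneg_right (by linarith) hL0.le
    linarith
  have hI0 := int_nonneg (show 2 ≤ N by omega)
  -- the inclusion
  have hincl : (Icc 1 A).filter (fun c => GoodG (FF a b) (η / 2) c₁ E N c) ⊆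
      (Icc 1 A).filter (fun c => GoodC a b η κ N c) ∪ (Ex ∪ Icc 1 (b ^ 2).toNat) := by
    intro c hc
    rw [mem_filter] at hc
    rw [mem_union, mem_union]
    by_cases hcE : c ∈ Ex
    · exact Or.inr (Or.inl hcE)
    by_cases hcb : c ∈ Icc 1 (b ^ 2).toNat
    · exact Or.inr (Or.inr hcb)
    left
    rw [mem_filter]
    refine ⟨hc.1, ?_⟩
    have hc1 := mem_Icc.1 hc.1
    have hcb2 : b ^ 2 < (c : ℤ) := by
      rw [mem_Icc] at hcb
      push Not at hcb
      have h1 := hcb hc1.1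
      omega
    obtain ⟨h1, h2⟩ := hc.2 w (by rw [← hL]; exact hwE') hw3
    rw [natDegree_FF a b ha, ← hL] at h2
    have hpos : 0 < hh (FF a b) c w := lt_of_lt_of_le hc₁ h1
    have hadm : Admissible a b c := admissible_of a b c w ha (by
      have : (a : ℝ) ≤ w := hLa.trans hwL
      exact_mod_cast this) (by
      have : (2 : ℝ) ≤ w := hL2.trans hwL
      exact_mod_cast this) hcb2 hpos
    obtain ⟨S, hS0, hS1, hS2⟩ := (hE3 c hc.1 hcE).2 hadm
    rw [← hh_FF, ← hL] at hS2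
    have hSG : κ ≤ 1 / 2 * (eps a b * S * gcdProd a b) := by
      have h3 := (abs_le.1 hS2).1
      have h4 : hh (FF a b) c w / L ^ 3 ≤ θ * hh (FF a b) c w := by
        calc hh (FF a b) c w / L ^ 3 = 1 / L ^ 3 * hh (FF a b) c w := by ring
          _ ≤ θ * hh (FF a b) c w := mul_le_mul_of_nonneg_right hL3 hpos.le
      have h5 : θ * hh (FF a b) c w ≤ 1 / 2 * hh (FF a b) c w := by
        apply mul_le_mul_of_nonneg_right _ hpos.le
        rw [hθ]
        linarith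
      rw [hκ]
      linarith
    refine ⟨hadm, S, hSG, hS1, ?_⟩
    have hSF : eps a b * S * gcdProd a b ≤ (1 + θ) * hh (FF a b) c w := by
      have h3 := (abs_le.1 hS2).2
      have h4 : hh (FF a b) c w / L ^ 3 ≤ θ * hh (FF a b) c w := by
        calc hh (FF a b) c w / L ^ 3 = 1 / L ^ 3 * hh (FF a b) c w := by ring
          _ ≤ θ * hh (FF a b) c w := mul_le_mul_of_nonneg_right hL3 hpos.le
      linarith
    refine le_trans ?_ h2
    have hη2 : 0 ≤ 1 - η := by linarith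
    calc (1 - η) * (1 / 2 * (eps a b * S * gcdProd a b) * ∫ t in (2 : ℝ)..(N : ℝ), 1 / Real.log t)
        ≤ (1 - η) * (1 / 2 * ((1 + θ) * hh (FF a b) c w) * ∫ t in (2 : ℝ)..(N : ℝ), 1 / Real.log t) := by gcongr
      _ ≤ (1 - η) * (1 / 2 * ((1 + θ) * hh (FF a b) c w) * ((1 + θ) * (N / L))) := by
          gcongr
      _ = ((1 - η) * (1 + θ) ^ 2) * (hh (FF a b) c w * (N / (2 * L))) := by
          field_simp
      _ ≤ (1 - η / 2) * (hh (FF a b) c w * (N / (2 * L))) := by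
          apply mul_le_mul_of_nonneg_right _ (by positivity)
          rw [hθ]
          nlinarith [mul_pos hη hη]
      _ = _ := by push_cast; ring
  -- counting
  have hcard := card_le_card hincl
  have h3 := card_union_le ((Icc 1 A).filter (fun c => GoodC a b η κ N c)) (Ex ∪ Icc 1 (b ^ 2).toNat)
  have h4 := card_union_le Ex (Icc 1 (b ^ 2).toNat)
  rw [Nat.card_Icc, Nat.add_sub_cancel] at h4
  have h5 : (#((Icc 1 A).filter (fun c => GoodG (FF a b) (η / 2) c₁ E N c)) : ℝ) ≤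
      #((Icc 1 A).filter (fun c => GoodC a b η κ N c)) + (#Ex + (b ^ 2).toNat) := by
    exact_mod_cast hcard.trans (h3.trans (Nat.add_le_add_left h4 _))
  have h6 : (((b ^ 2).toNat : ℕ) : ℝ) = (b : ℝ) ^ 2 := by
    have : (((b ^ 2).toNat : ℕ) : ℤ) = b ^ 2 := Int.toNat_of_nonneg (sq_nonneg b)
    exact_mod_cast this
  rw [h6] at h5
  have h7 : (b : ℝ) ^ 2 ≤ c₁ / 4 * A := by
    have h8 := g3.trans hAhalf
    rw [div_le_iff₀ hc₁] at h8
    nlinarith [sq_nonneg (b : ℝ)]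
  have h8 : (#Ex : ℝ) ≤ c₁ / 4 * A := by
    refine hE2.trans ?_
    rw [div_le_iff₀ (by positivity)]
    have h9 : 4 / c₁ ≤ L ^ 3 := by
      have : L ≤ L ^ 3 := le_self_pow₀ (by linarith) (by norm_num)
      linarith
    rw [div_le_iff₀ hc₁] at h9
    nlinarith
  have h9 : c₁ * (A : ℝ) ≤ #((Icc 1 A).filter (fun c => GoodG (FF a b) (η / 2) c₁ E N c)) := by
    refine hG.trans (le_of_eq ?_)
    rfl
  have h10 : 0 < c₁ * (A : ℝ) := mul_pos hc₁ hA0
  have h11 : κ * (A : ℝ) = c₁ / 4 * A := by rw [hκ]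
  linarith

end Run7.h462.QA
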